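import Pool.Agent.N554.HVZ.Def

set_option autoImplicit false

/-!
Project HV (helper554), leaf INF (helper736): the position of a factor in a product of blocks.
-/

namespace Pool.Agent.N736.HVZ

open Pool.Agent.N554.HVZ
open Pool.Agent.N554.HKS (ext)

lemma ext_cons {A B : Type} (X : A → List B) (a : A) (s : List A) :
    ext X (a :: s) = X a ++ ext X s := by
  unfold ext
  rw [List.flatMap_cons]

lemma pre {A B : Type} (X : A → List B) (s : List A) : ∀ t : List B, t <+: ext X s →
    ∃ (s2 : List A) (t2 : List B), t = ext X s2 ++ t2 ∧ s2.length ≤ s.length ∧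
      (t2 = [] ∨ ∃ a, t2 <+: X a) := by
  induction s with
  | nil =>
    intro t ht
    have h0 : t = [] := List.prefix_nil.1 ht
    exact ⟨[], [], by rw [h0]; rfl, le_rfl, Or.inl rfl⟩
  | cons a s ih =>
    intro t ht
    obtain ⟨r, hr⟩ := ht
    rw [ext_cons, List.append_eq_append_iff] at hr
    rcases hr with ⟨a', h1, h2⟩ | ⟨c', h1, h2⟩
    · exact ⟨[], t, rfl, Nat.zero_le _, Or.inr ⟨a, ⟨a', h1.symm⟩⟩⟩
    · obtain ⟨s2, t2, h3, h4, h5⟩ := ih c' ⟨r, h2.symm⟩
      refine ⟨a :: s2, t2, ?_, by simpa using h4, h5⟩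
      rw [h1, h3, ext_cons, List.append_assoc]

theorem INF_proof : INF := by
  intro A B X s
  induction s with
  | nil =>
    intro t ht
    have h0 : t = [] := List.infix_nil.1 ht
    exact Or.inr ⟨[], [], [], by rw [h0]; rfl, le_rfl, Or.inl rfl, Or.inl rfl⟩
  | cons a s ih =>
    intro t ht
    obtain ⟨p, q, hr⟩ := ht
    rw [ext_cons, List.append_assoc, List.append_eq_append_iff] at hr
    rcases hr with ⟨a', h1, h2⟩ | ⟨c', h1, h2⟩
    · rw [List.append_eq_append_iff] at h2
      rcases h2 with ⟨a'', h3, h4⟩ | ⟨c', h3, h4⟩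
      · left
        refine ⟨a, List.mem_cons_self, p, a'', ?_⟩
        rw [h1, h3, List.append_assoc]
      · right
        obtain ⟨s2, t2, h5, h6, h7⟩ := pre X s c' ⟨q, h4.symm⟩
        refine ⟨a', t2, s2, ?_, ?_, Or.inr ⟨a, ⟨p, h1.symm⟩⟩, h7⟩
        · rw [h3, h5, List.append_assoc]
        · rw [List.length_cons]
          omega
    · rcases ih t ⟨c', q, by rw [List.append_assoc]; exact h2.symm⟩ with ⟨b, hb, h3⟩ |
        ⟨t1, t2, s', h3, h4, h5, h6⟩
      · exact Or.inl ⟨b, List.mem_cons_of_mem _ hb, h3⟩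
      · exact Or.inr ⟨t1, t2, s', h3, by rw [List.length_cons]; omega, h5, h6⟩

end Pool.Agent.N736.HVZ
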